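import Pool.Agent.V1167.PP.Main
import Pool.Agent.V1167.PP.Nat

set_option autoImplicit false

/-!
MP_39df77_nt. The sixth moment near the critical line, with the law of the phases of all the primes.

Let `δ(T) → 0` and `δ(T) log T → ∞`. Off a set of measure `o(δ^6 T)` where `|ζ(1/2 + δ + it)| > δ^(-5/2)`,
the sixth moment on the line `Re s = 1/2 + δ` is asymptotic to `a_3 (2δ)^(-9) T` and, with respect to
the weight `|ζ|^6`, the family `(p^(it))_p` converges in law to independent points `e(θ_p)`, `θ_p` with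
density proportional to `|1 - e(θ) / √p|^(-6)`, asymptotically independent of `log |ζ|`, which is
asymptotically normal with mean `3 log (1/(2δ))` and variance `(1/2) log (1/(2δ))`.
-/

open Filter MeasureTheory Topology

namespace Pool.Agent.Results.MP_39df77_nt.PrimePhases

/-- The arithmetic factor `a_k = ∏_p (1 - 1/p)^(k²) ∑_m C(m + k - 1, m)² p^(-m)`. -/
noncomputable def ak (k : ℕ) : ℝ :=
  ∏' p : Nat.Primes, ((1 - 1 / (p : ℝ)) ^ (k ^ 2) *
    ∑' m : ℕ, ((m + k - 1).choose m : ℝ) ^ 2 * (1 / (p : ℝ)) ^ m)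

/-- `|ζ(1/2 + δ + it)|`. -/
noncomputable def Z (δ t : ℝ) : ℝ := ‖riemannZeta (((1 / 2 + δ : ℝ) : ℂ) + t * Complex.I)‖

/-- `log |ζ|` minus `s log (1/(2δ))`, divided by `√((1/2) log (1/(2δ)))`. -/
noncomputable def N (s δ t : ℝ) : ℝ :=
  (Real.log (Z δ t) - s * Real.log (1 / (2 * δ))) / Real.sqrt (Real.log (1 / (2 * δ)) / 2)

/-- `e(x) = exp(2πix)`. -/
noncomputable def e (x : ℝ) : ℂ := Complex.exp (2 * Real.pi * Complex.I * x)

/-- The `2s`-th power `|1 - e(x) / √p|^(-2s)` of the Euler factor at `p`. -/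
noncomputable def euler (s : ℝ) (p : ℕ) (x : ℝ) : ℝ := ‖1 - e x / (Real.sqrt p : ℂ)‖ ^ (-(2 * s))

/-- The probability measure on `[0, 1]` whose density is proportional to `|1 - e(x) / √p|^(-2s)`. -/
noncomputable def phaseLaw (s : ℝ) (p : ℕ) : Measure ℝ :=
  (volume.restrict (Set.Icc (0:ℝ) 1)).withDensity
    fun x => ENNReal.ofReal (euler s p x / ∫ y in Set.Icc (0:ℝ) 1, euler s p y)

lemma ak_eq {k : ℕ} (hk : 1 ≤ k) : ak k = Pool.Agent.H306R2.aF k :=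
  (Pool.Agent.V1167.PP.aF_nat k hk).symm

/-- Let `δ(T) → 0` and `δ(T) log T → ∞`. There are sets `E(T) ⊆ [0, T]` of measure `o(δ^6 T)` on which
`|ζ(1/2 + δ + it)| > δ^(-5/2)`, such that for all bounded continuous `F : ℝ → ℝ` and all continuous
functions `G` of the family `(p^(it))_p` indexed by all the primes

`(2δ)^9 (1/T) ∫_{[0,T] \ E(T)} |ζ|^6 F(N) G((p^(it))_p) dt → a_3 (∫ F dγ) 𝔼 G((e(θ_p))_p)`,

where `ζ = ζ(1/2 + δ + it)`, `N = (log |ζ| - 3 log (1/(2δ))) / √((1/2) log (1/(2δ)))`, `γ` is the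
standard normal law and the `θ_p` are independent with laws `phaseLaw 3 p`. -/
theorem result (δ : ℝ → ℝ) (hδ : Tendsto δ atTop (𝓝 0))
    (hδL : Tendsto (fun T : ℝ => δ T * Real.log T) atTop atTop) :
    ∃ E : ℝ → Set ℝ,
      (∀ T, MeasurableSet (E T) ∧ E T ⊆ Set.Icc 0 T ∧ ∀ t ∈ E T, (δ T) ^ (-(5 / 2 : ℝ)) < Z (δ T) t) ∧
      Tendsto (fun T => (volume (E T)).toReal / (T * (δ T) ^ 6)) atTop (𝓝 0) ∧ 0 < ak 3 ∧
      ∀ F : BoundedContinuousFunction ℝ ℝ, ∀ G : (Nat.Primes → ℂ) → ℂ, Continuous G →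
        Tendsto (fun T : ℝ => (((2 * δ T) ^ 9 / T : ℝ) : ℂ) *
          ∫ t in Set.Icc 0 T \ E T, ((Z (δ T) t ^ 6 * F (N 3 (δ T) t) : ℝ) : ℂ) *
            G (fun p => ((p : ℕ) : ℂ) ^ ((t:ℂ) * Complex.I))) atTop
          (𝓝 (((ak 3 * ∫ x, F x ∂(ProbabilityTheory.gaussianReal 0 1) : ℝ) : ℂ) *
            ∫ θ, G (fun p => e (θ p)) ∂(Measure.infinitePi fun p : Nat.Primes => phaseLaw 3 p))) := by
  obtain ⟨E, hE, hvol, hm⟩ := Pool.Agent.V1167.PP.prime_phases hδ hδL (κ := 1 / 2) (by norm_num)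
  have e1 : (4 + 4 * (1 / 2) : ℝ) = ((6 : ℕ) : ℝ) := by norm_num
  have e2 : (-(2 + 1 / 2) : ℝ) = -(5 / 2 : ℝ) := by norm_num
  have e3 : ((3:ℝ) ^ 2) = ((9 : ℕ) : ℝ) := by norm_num
  have e4 : (2 * 3 : ℝ) = ((6 : ℕ) : ℝ) := by norm_num
  rw [e1] at hvol
  simp_rw [Real.rpow_natCast] at hvol
  obtain ⟨h1, h2⟩ := hm 3 (by norm_num) (Or.inr (by norm_num))
  refine ⟨E, fun T => ⟨(hE T).1, (hE T).2.1, fun t ht => ?_⟩, hvol, ?_, fun F G hG => ?_⟩
  · rw [← e2]; exact (hE T).2.2 t ht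
  · rw [ak_eq (by norm_num)]; exact_mod_cast h1
  · have h3 := h2 F G hG
    rw [e3, e4] at h3
    simp_rw [Real.rpow_natCast] at h3
    have e5 : ak 3 = Pool.Agent.H306R2.aF 3 := by rw [ak_eq (by norm_num)]; norm_num
    rw [e5]
    exact h3

end Pool.Agent.Results.MP_39df77_nt.PrimePhases
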