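import Pool.Agent.V11128.CXL.I
import Pool.Agent.V1167.PP.Nat

/-!
# MP_39df77_nt: means of order six of all homogeneous functions of shifted values of ζ

Let `δ(T) → 0` and `δ(T) log T → ∞`, and let `S` be a countable set of shifts. Off sets
`E(T) ⊆ [0, T]` of measure `o(δ^6 T)`, at each point of which `|ζ(1/2 + δ + i(t + xδ))| > δ^(-5/2)` for
some `x ∈ S ∪ {0}`, the following is true for all `a_1, ..., a_n ∈ S` and for all continuous real functions
`Φ` on `ℂ^n` with `Φ(λz) = |λ|^6 Φ(z)` for all complex `λ`: the mean over `t` of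
`Φ(ζ(1/2 + δ + i(t + a_1 δ)), ..., ζ(1/2 + δ + i(t + a_n δ)))` is asymptotic to
`a_3 (2δ)^(-9) E Φ(exp z_1, ..., exp z_n)`, where `z` is the circular complex normal vector with means
`-3 ℓ(a_j)` and covariances `ℓ(a_j) + ℓ(-a_i) - ℓ(a_j - a_i)`, `ℓ(x) = log (1 + ix/2)`.

Examples: the sixth moments of all linear combinations of shifted values (in particular of
increments), of the maximum of `|ζ|` over several points, real powers `∏ |ζ(s_j)|^(κ_j)`, `∑ κ_j = 6`,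
and moments of real order `6/p` of the local moments `∑ |ζ(s_j)|^p`.

This is the case of order six of a theorem for all orders (`Pool.Agent.V11128.CXL.homog_small`), handed
in at another problem.
-/

set_option autoImplicit false

namespace Pool.Agent.Results.MP_39df77_nt.SixthMomentLandscape

open Filter MeasureTheory Topology ProbabilityTheory

/-- The arithmetic factor `a_3 = ∏_p (1 - 1/p)^9 ∑_m C(m + 2, 2)² p^(-m)`. -/
noncomputable def a3 : ℝ :=
  ∏' p : Nat.Primes, ((1 - 1 / (p : ℝ)) ^ 9 * ∑' m : ℕ, ((m + 2).choose 2 : ℝ) ^ 2 * (1 / (p : ℝ)) ^ m)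

/-- `ζ(1/2 + δ + i(t + xδ))`. -/
noncomputable def Z (δ x t : ℝ) : ℂ :=
  riemannZeta (1 / 2 + δ + ((t + x * δ : ℝ) : ℂ) * Complex.I)

/-- `Φ(λz) = |λ|^6 Φ(z)` for all complex `λ`. -/
def IsHomSix {n : ℕ} (Φ : (Fin n → ℂ) → ℝ) : Prop :=
  ∀ (l : ℂ) (z : Fin n → ℂ), Φ (fun j => l * z j) = ‖l‖ ^ 6 * Φ z

/-- `ℓ(x) = log (1 + ix/2)`, principal determination. -/
noncomputable def ell (x : ℝ) : ℂ := Complex.log (1 + Complex.I * (x : ℂ) / 2)

/-- The means `-3 ℓ(a_j)` of the limit law. -/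
noncomputable def mean {n : ℕ} (a : Fin n → ℝ) (j : Fin n) : ℂ := -3 * ell (a j)

/-- The covariances `E (z_j - m_j) conj (z_i - m_i)` of the limit law. -/
noncomputable def cov {n : ℕ} (a : Fin n → ℝ) (j i : Fin n) : ℂ :=
  ell (a j) + ell (-a i) - ell (a j - a i)

/-- `ρ` is the circular complex normal law on `ℂ^n` with mean `m` and covariance matrix `K`: for each
`c ∈ ℂ^n`, the real part of `∑ c_j z_j` has the normal law with mean `Re ∑ c_j m_j` and variance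
`(1/2) Re ∑ c_j conj(c_i) K_ji ≥ 0`. -/
def IsCNormal {n : ℕ} (m : Fin n → ℂ) (K : Fin n → Fin n → ℂ) (ρ : ProbabilityMeasure (Fin n → ℂ)) :
    Prop :=
  ∀ c : Fin n → ℂ, 0 ≤ (∑ j, ∑ i, c j * (starRingEnd ℂ) (c i) * K j i).re / 2 ∧
    (ρ : Measure (Fin n → ℂ)).map (fun z => (∑ j, c j * z j).re) =
      gaussianReal (∑ j, c j * m j).re ((∑ j, ∑ i, c j * (starRingEnd ℂ) (c i) * K j i).re / 2).toNNReal

lemma a3_eq : a3 = Pool.Agent.H306R2.aF 3 := by
  have h := Pool.Agent.V1167.PP.aF_nat 3 (by norm_num)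
  have h2 : Pool.Agent.H306R2.aF ((3 : ℕ) : ℝ) = Pool.Agent.H306R2.aF 3 := by norm_num
  rw [← h2, h]
  unfold a3
  refine tprod_congr fun p => ?_
  have e1 : (3 : ℕ) ^ 2 = 9 := by norm_num
  rw [e1]
  congr 1
  refine tsum_congr fun m => ?_
  have e2 : m + 3 - 1 = m + 2 := rfl
  rw [e2, ← Nat.choose_symm_add (a := m) (b := 2)]

/-- Let `δ(T) → 0` and `δ(T) log T → ∞`, and let `S` be a countable set of shifts. There are sets
`E(T) ⊆ [0, T]` of measure `o(T δ^6)`, at each point of which `|ζ(1/2 + δ + i(t + xδ))| > δ^(-5/2)` for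
some `x ∈ S ∪ {0}`, such that for all `a_1, ..., a_n ∈ S`, with the circular complex normal law `ρ` of mean
`-3 ℓ(a_j)` and covariance `ℓ(a_j) + ℓ(-a_i) - ℓ(a_j - a_i)`: for all continuous `Φ` with
`Φ(λz) = |λ|^6 Φ(z)`, the function `Φ(exp z_1, ..., exp z_n)` is `ρ`-integrable and

`(2δ)^9 (1/T) ∫_{[0,T] \ E(T)} Φ(ζ(1/2 + δ + i(t + a_1 δ)), ..., ζ(1/2 + δ + i(t + a_n δ))) dt`
`→ a_3 ∫ Φ(exp z_1, ..., exp z_n) dρ(z)`. -/
theorem result (δ : ℝ → ℝ) (hδ : Tendsto δ atTop (𝓝 0))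
    (hδL : Tendsto (fun T : ℝ => δ T * Real.log T) atTop atTop) (S : Set ℝ) (hS : S.Countable) :
    0 < a3 ∧ ∃ E : ℝ → Set ℝ,
      (∀ T, MeasurableSet (E T) ∧ E T ⊆ Set.Icc 0 T ∧ ∀ t ∈ E T, ∃ x ∈ insert 0 S,
        (δ T) ^ (-(5 / 2 : ℝ)) < ‖Z (δ T) x t‖) ∧
      Tendsto (fun T => (volume (E T)).toReal / (T * (δ T) ^ 6)) atTop (𝓝 0) ∧
      ∀ (n : ℕ) (a : Fin n → ℝ), (∀ j, a j ∈ S) →
        ∃ ρ : ProbabilityMeasure (Fin n → ℂ), IsCNormal (mean a) (cov a) ρ ∧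
          ∀ Φ : (Fin n → ℂ) → ℝ, Continuous Φ → IsHomSix Φ →
            Integrable (fun z => Φ (fun j => Complex.exp (z j))) (ρ : Measure (Fin n → ℂ)) ∧
            Tendsto (fun T : ℝ => (2 * δ T) ^ 9 / T *
              ∫ t in Set.Icc 0 T \ E T, Φ (fun j => Z (δ T) (a j) t)) atTop
              (𝓝 (a3 * ∫ z, Φ (fun j => Complex.exp (z j)) ∂(ρ : Measure (Fin n → ℂ)))) := by
  obtain ⟨E, hE, hvol, hm⟩ := Pool.Agent.V11128.CXL.homog_small hδ hδL (c := 1 / 2) (by norm_num) hS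
    (Set.countable_singleton (6 : ℝ)) (fun β hβ => by rw [Set.mem_singleton_iff.1 hβ]; norm_num)
  have e1 : (4 + 4 * (1 / 2) : ℝ) = ((6 : ℕ) : ℝ) := by norm_num
  have e2 : (-(2 + 1 / 2) : ℝ) = -(5 / 2 : ℝ) := by norm_num
  rw [e1] at hvol
  simp_rw [Real.rpow_natCast] at hvol
  refine ⟨?_, E, fun T => ⟨(hE T).1, (hE T).2.1, fun t ht => ?_⟩, hvol, fun n a ha => ?_⟩
  · rw [a3_eq]
    exact Pool.Agent.H306R2.aF_pos (by norm_num)
  · rw [← e2]
    exact (hE T).2.2 t ht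
  · obtain ⟨ρ, hρ, hF⟩ := hm 6 rfl (Or.inr (by norm_num)) n a ha
    obtain ⟨ρ', h1, h2⟩ := Pool.Agent.V11128.CXL.toC 6 a hρ
    refine ⟨ρ', ?_, fun Φ hc hh => ?_⟩
    · have e3 : mean a = fun j => -((6 : ℝ) / 2 : ℂ) * ell (a j) := by
        funext j
        unfold mean
        congr 1
        push_cast
        norm_num
      rw [e3]
      exact h1
    · obtain ⟨h3, h4⟩ := hF Φ hc (fun l z => by
        have := hh l z
        rw [this, ← Real.rpow_natCast]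
        norm_num)
      obtain ⟨h5, h6⟩ := h2 Φ hc
      refine ⟨h5 h3, ?_⟩
      rw [h6]
      have e4 : ((6 : ℝ) / 2) = 3 := by norm_num
      have e5 : ((3 : ℝ) ^ 2) = ((9 : ℕ) : ℝ) := by norm_num
      rw [e4, e5] at h4
      simp_rw [Real.rpow_natCast] at h4
      rw [a3_eq]
      exact h4

end Pool.Agent.Results.MP_39df77_nt.SixthMomentLandscape
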